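import Mathlib
import Pool.Agent.V11333.Cop6

open Filter Topology Finset MeasureTheory ProbabilityTheory
open scoped ENNReal
open Pool.Agent.V11333.Cop

namespace Pool.Agent.Results.MP_9ba241_pr.NoLowerMonomers

/-- Q1 as posed: for every admissible renewal/sign model `(K, T, ζ)` and every admissible
disorder `ω`, every `(λ, h)` in the interior of the delocalized region and every `ε > 0`,
almost surely `P_{N,ω}(Δ_n = 0 for all n ∈ [εN, N]) → 0`. -/
def Q1 : Prop :=
  ∀ (X Ω : Type) [MeasurableSpace X] [MeasurableSpace Ω] (Q : Measure X) (P : Measure Ω)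
    [IsProbabilityMeasure Q] [IsProbabilityMeasure P] (K : ℕ → ℝ) (α cK : ℝ)
    (T : ℕ → X → ℕ) (ζ : ℕ → X → Bool) (ω : ℕ → Ω → ℝ),
    KernelOK K α cK → RenewalOK Q K T ζ → ChargesOK P ω →
    ∀ lam h : ℝ, (lam, h) ∈ interior (Deloc Q P T ζ ω) → ∀ ε : ℝ, 0 < ε →
      ∀ᵐ v ∂P, Tendsto (fun N : ℕ => polymer Q T ζ ω lam h N v (upEvent T ζ ε N)) atTop (𝓝 0)

/-- law of one (gap, sign) pair -/
noncomputable def gapLaw (K : ℕ → ℝ) : Measure (ℕ × Bool) :=
  Measure.sum (fun p : ℕ × Bool => ENNReal.ofReal (K p.1 / 2) • Measure.dirac p)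

lemma gapLaw_singleton (K : ℕ → ℝ) (n : ℕ) (b : Bool) :
    gapLaw K {(n, b)} = ENNReal.ofReal (K n / 2) := by
  unfold gapLaw
  rw [Measure.sum_apply _ (measurableSet_singleton _)]
  rw [tsum_eq_single (n, b)]
  · simp
  · intro p hp
    simp [hp]

lemma gapLaw_prob {K : ℕ → ℝ} {α cK : ℝ} (hK : KernelOK K α cK) :
    IsProbabilityMeasure (gapLaw K) := by
  constructor
  unfold gapLaw
  rw [Measure.sum_apply _ MeasurableSet.univ]
  have h1 : ∀ p : ℕ × Bool, (ENNReal.ofReal (K p.1 / 2) • Measure.dirac p) Set.univ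
      = ENNReal.ofReal (K p.1 / 2) := by intro p; simp
  simp_rw [h1]
  rw [ENNReal.tsum_prod (f := fun n (_ : Bool) => ENNReal.ofReal (K n / 2))]
  have h2 : ∀ n, ∑' _ : Bool, ENNReal.ofReal (K n / 2) = ENNReal.ofReal (K n) := by
    intro n
    rw [tsum_bool, ← ENNReal.ofReal_add]
    · congr 1; ring
    · have := hK.nonneg n; positivity
    · have := hK.nonneg n; positivity
  simp_rw [h2]
  rw [← ENNReal.ofReal_tsum_of_nonneg hK.nonneg hK.sum_one.summable, hK.sum_one.tsum_eq,
    ENNReal.ofReal_one]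

/-- Models exist for every admissible `K`. -/
lemma exists_renewal {K : ℕ → ℝ} {α cK : ℝ} (hK : KernelOK K α cK) :
    ∃ Q : Measure (ℕ → ℕ × Bool), IsProbabilityMeasure Q ∧
      RenewalOK Q K (fun i x => (x i).1) (fun i x => (x i).2) := by
  have := gapLaw_prob hK
  refine ⟨Measure.infinitePi (fun _ => gapLaw K), inferInstance, ?_, ?_, ?_, ?_⟩
  · intro i; fun_prop
  · intro i; fun_prop
  · have h := iIndepFun_infinitePi (P := fun _ : ℕ => gapLaw K) (X := fun _ p => p)
      (fun _ => measurable_id)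
    exact h
  · intro i n b
    have h := (measurePreserving_eval_infinitePi (fun _ : ℕ => gapLaw K) i).measure_preimage
      (measurableSet_singleton (n, b)).nullMeasurableSet
    rw [gapLaw_singleton] at h
    rw [← h]
    congr 1
    ext x
    simp [Function.eval, Prod.ext_iff]

lemma exists_kernel : KernelOK (fun n : ℕ => if n = 0 then (0:ℝ) else 1 / ((n:ℝ) * (n + 1))) 1 1 := by
  refine ⟨one_pos, one_pos, by simp, ?_, ?_, ?_⟩
  · intro n hn
    have hn0 : n ≠ 0 := by omega
    simp only [hn0, if_false]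
    positivity
  · have hpart : ∀ m : ℕ, ∑ n ∈ range (m + 1), (if n = 0 then (0:ℝ) else 1 / ((n:ℝ) * (n + 1)))
        = 1 - 1 / ((m:ℝ) + 1) := by
      intro m
      induction m with
      | zero => simp
      | succ m ih =>
          rw [Finset.sum_range_succ, ih]
          simp only [Nat.succ_ne_zero, if_false]
          push_cast
          field_simp
          ring
    rw [hasSum_iff_tendsto_nat_of_nonneg]
    · rw [← tendsto_add_atTop_iff_nat 1]
      simp_rw [hpart]
      have := (tendsto_one_div_add_atTop_nhds_zero_nat (𝕜 := ℝ)).const_sub 1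
      simpa using this
    · intro n
      split_ifs
      · exact le_rfl
      · positivity
  · have h1 : Tendsto (fun n : ℕ => (n:ℝ) / (n + 1)) atTop (𝓝 1) :=
      tendsto_natCast_div_add_atTop 1
    refine h1.congr' ?_
    filter_upwards [eventually_ge_atTop 1] with n hn
    have hn0 : n ≠ 0 := by omega
    have hnR : (0:ℝ) < n := by exact_mod_cast hn
    simp only [hn0, if_false]
    have : (n:ℝ) ^ ((1:ℝ) + 1) = (n:ℝ) ^ 2 := by
      rw [← Real.rpow_natCast]; norm_num
    rw [this]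
    field_simp

lemma exists_charges : ∃ P : Measure (ℕ → ℝ), IsProbabilityMeasure P ∧
    ChargesOK P (fun i x => x i) := by
  refine ⟨Measure.infinitePi (fun _ => gaussianReal 0 1), inferInstance, ?_, ?_, ?_, ?_, ?_, ?_⟩
  · intro n; fun_prop
  · have h := iIndepFun_infinitePi (P := fun _ : ℕ => gaussianReal 0 1) (X := fun _ p => p)
      (fun _ => measurable_id)
    exact h
  · intro n
    refine ⟨(measurable_pi_apply n).aemeasurable, (measurable_pi_apply 0).aemeasurable, ?_⟩
    rw [(measurePreserving_eval_infinitePi (fun _ : ℕ => gaussianReal 0 1) n).map_eq,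
      (measurePreserving_eval_infinitePi (fun _ : ℕ => gaussianReal 0 1) 0).map_eq]
  · intro t
    have hmp := measurePreserving_eval_infinitePi (fun _ : ℕ => gaussianReal 0 1) 0
    exact hmp.integrable_comp_of_integrable (integrable_exp_mul_gaussianReal t)
  · have hmp := measurePreserving_eval_infinitePi (fun _ : ℕ => gaussianReal 0 1) 0
    have h := integral_map (μ := Measure.infinitePi (fun _ : ℕ => gaussianReal 0 1))
      (φ := fun x => x 0) (f := fun y : ℝ => y) (measurable_pi_apply 0).aemeasurable (by fun_prop)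
    have hmap : Measure.map (fun x : ℕ → ℝ => x 0)
      (Measure.infinitePi (fun _ : ℕ => gaussianReal 0 1)) = gaussianReal 0 1 := hmp.map_eq
    rw [hmap, integral_id_gaussianReal] at h
    exact h.symm
  · have hmp := measurePreserving_eval_infinitePi (fun _ : ℕ => gaussianReal 0 1) 0
    have h := integral_map (μ := Measure.infinitePi (fun _ : ℕ => gaussianReal 0 1))
      (φ := fun x => x 0) (f := fun y : ℝ => y ^ 2) (measurable_pi_apply 0).aemeasurable (by fun_prop)
    have hmap : Measure.map (fun x : ℕ → ℝ => x 0)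
      (Measure.infinitePi (fun _ : ℕ => gaussianReal 0 1)) = gaussianReal 0 1 := hmp.map_eq
    rw [hmap] at h
    rw [← h]
    have hv := variance_fun_id_gaussianReal (μ := 0) (v := 1)
    rw [variance_eq_integral (by fun_prop)] at hv
    simp only [integral_id_gaussianReal, sub_zero] at hv
    simpa using hv

/-- Q1 is false. More precisely, for **every** admissible inter-arrival law, sign/renewal model
and disorder law, and all `λ > 0`, `h` with `E exp(-2λ(ω+h)) < 1` (for every `λ > 0` this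
holds for all large `h`), the point `(λ, h)` is interior to the delocalized region and for every
`ε > 0` the quenched probability of `{Δ_n = 0 for all n ∈ [εN, N]}` tends to `1` in mean, and
almost surely tends to `1` along a deterministic subsequence. -/
theorem result :
    ¬ Q1 ∧
    (∀ {X Ω : Type} [MeasurableSpace X] [MeasurableSpace Ω] (Q : Measure X) (P : Measure Ω)
      [IsProbabilityMeasure Q] [IsProbabilityMeasure P] (K : ℕ → ℝ) (α cK : ℝ)
      (T : ℕ → X → ℕ) (ζ : ℕ → X → Bool) (ω : ℕ → Ω → ℝ),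
      KernelOK K α cK → RenewalOK Q K T ζ → ChargesOK P ω →
      ∀ lam : ℝ, 0 < lam →
        (∃ h0 : ℝ, ∀ h : ℝ, h0 ≤ h → ∫ v, Real.exp (-2 * lam * (ω 0 v + h)) ∂P < 1) ∧
        ∀ h : ℝ, ∫ v, Real.exp (-2 * lam * (ω 0 v + h)) ∂P < 1 →
          (lam, h) ∈ interior (Deloc Q P T ζ ω) ∧
          ∀ ε : ℝ, 0 < ε →
            Tendsto (fun N : ℕ => ∫ v, polymer Q T ζ ω lam h N v (upEvent T ζ ε N) ∂P)
              atTop (𝓝 1) ∧
            ∃ ns : ℕ → ℕ, StrictMono ns ∧ ∀ᵐ v ∂P,
              Tendsto (fun k => polymer Q T ζ ω lam h (ns k) v (upEvent T ζ ε (ns k)))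
                atTop (𝓝 1)) := by
  have main : ∀ {X Ω : Type} [MeasurableSpace X] [MeasurableSpace Ω] (Q : Measure X)
      (P : Measure Ω)
      [IsProbabilityMeasure Q] [IsProbabilityMeasure P] (K : ℕ → ℝ) (α cK : ℝ)
      (T : ℕ → X → ℕ) (ζ : ℕ → X → Bool) (ω : ℕ → Ω → ℝ),
      KernelOK K α cK → RenewalOK Q K T ζ → ChargesOK P ω →
      ∀ lam : ℝ, 0 < lam →
        (∃ h0 : ℝ, ∀ h : ℝ, h0 ≤ h → ∫ v, Real.exp (-2 * lam * (ω 0 v + h)) ∂P < 1) ∧
        ∀ h : ℝ, ∫ v, Real.exp (-2 * lam * (ω 0 v + h)) ∂P < 1 →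
          (lam, h) ∈ interior (Deloc Q P T ζ ω) ∧
          ∀ ε : ℝ, 0 < ε →
            Tendsto (fun N : ℕ => ∫ v, polymer Q T ζ ω lam h N v (upEvent T ζ ε N) ∂P)
              atTop (𝓝 1) ∧
            ∃ ns : ℕ → ℕ, StrictMono ns ∧ ∀ᵐ v ∂P,
              Tendsto (fun k => polymer Q T ζ ω lam h (ns k) v (upEvent T ζ ε (ns k)))
                atTop (𝓝 1) := by
    intro X Ω _ _ Q P _ _ K α cK T ζ ω hK hT hω lam hlam
    refine ⟨exists_h0 hω lam hlam, ?_⟩
    intro h hr
    refine ⟨mem_interior_deloc hT hK hω lam h hlam hr, ?_⟩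
    intro ε hε
    exact ⟨pol_tendsto1 hT hK hω lam h hr ε hε, pol_subseq hT hK hω lam h hr ε hε⟩
  refine ⟨?_, main⟩
  intro hQ1
  obtain ⟨Q, hQp, hT⟩ := exists_renewal exists_kernel
  obtain ⟨P, hPp, hω⟩ := exists_charges
  obtain ⟨⟨h0, hh0⟩, hmain⟩ := main Q P _ 1 1 _ _ _ exists_kernel hT hω 1 one_pos
  have hr := hh0 h0 le_rfl
  obtain ⟨hint, hrest⟩ := hmain h0 hr
  obtain ⟨_, ns, hns, hae⟩ := hrest 1 one_pos
  have hae2 := hQ1 _ _ Q P _ 1 1 _ _ _ exists_kernel hT hω 1 h0 hint 1 one_pos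
  obtain ⟨v, hv1, hv2⟩ := (hae.and hae2).exists
  have h3 := hv2.comp hns.tendsto_atTop
  have := tendsto_nhds_unique hv1 h3
  norm_num at this

end Pool.Agent.Results.MP_9ba241_pr.NoLowerMonomers
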